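import Pool.Agent.TH270.SH.Law
import Pool.Agent.Y697.DL.Main

/-! Elliptic curves over number fields: finite sums over the places, zero-free sectors and
continuation. -/

set_option autoImplicit false

namespace Pool.Agent.Y697.SL

open Filter Topology Set NumberField IsDedekindDomain
open Pool.Agent.TH942.ES
open Pool.Agent.TH942.SL (Sect wml sect_re sect_real)
open Pool.Agent.TH270.SH
open Pool.Agent.Y697.DL (NV csys IsL cnt rk cnt_log order_exists ord_shift)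
open Pool.Agent.H921R2.TatePole (nm two_le_nm)

variable {K : Type} [Field K] [NumberField K] {a b : 𝓞 K} {F : ℂ → ℂ}

/-- the finite sum over the places -/
noncomputable def fsum (a b : 𝓞 K) (ρ ρ' Y : ℝ) : ℝ :=
  ∑ᶠ (v : {v : HeightOneSpectrum (𝓞 K) // GoodV a b v})
    (_ : (nm v.1 : ℝ) ≤ Real.exp (Real.log Y ^ ρ')),
    wml ρ⁻¹ (Real.log (nm v.1) / Real.log Y) *
      Real.log (((ptsV a b v.1 + 1 : ℕ) : ℝ) / nm v.1)

theorem fsum_eq (ρ ρ' Y : ℝ) : fsum a b ρ ρ' Y = SrE (NV a b) (alV a b) ρ ρ' Y := by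
  unfold fsum SrE
  refine finsum_congr fun v => ?_
  have h1 : cv (NV a b) (alV a b) v = Real.log (((ptsV a b v.1 : ℝ) + 1) / nm v.1) := curve_cv v
  rw [h1]
  unfold NV
  push_cast
  rfl

theorem con_of (hF : IsL a b F) : Con (NV a b) (alV a b) (fun w => F (1 + w)) where
  Ψd := fun _ _ => (hF.cp.ent).differentiableAt
  prod := hF.cp.prod

/-- a continuation without zeros -/
def ZFree (a b : 𝓞 K) (U : Set ℂ) (G : ℂ → ℂ) : Prop :=
  (∀ s : ℂ, s - 1 ∈ U ∨ 3 / 2 < s.re → DifferentiableAt ℂ G s ∧ G s ≠ 0) ∧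
    ∀ s : ℂ, 3 / 2 < s.re →
      HasProd (fun v : {v : HeightOneSpectrum (𝓞 K) // GoodV a b v} => efV a b v.1 s) (G s)

theorem hasProd_iff {w : ℂ} (hw : 1 / 2 < w.re) (z : ℂ) :
    HasProd (fun v : {v : HeightOneSpectrum (𝓞 K) // GoodV a b v} => efV a b v.1 (1 + w)) z ↔
      z = LE (NV a b) (alV a b) w := by
  have h2 : (fun v : {v : HeightOneSpectrum (𝓞 K) // GoodV a b v} => efV a b v.1 (1 + w)) =
      fun v => ∏ i, (1 - zv (NV a b) (alV a b) v i * xv (NV a b) v w)⁻¹ := by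
    funext v
    exact (curve_factor v w).symm
  rw [h2]
  have h3 := (csys a b).hasProd hw
  rw [← (csys a b).LE_eq hw] at h3
  exact ⟨fun h => h.unique h3, fun h => h ▸ h3⟩

theorem zfree_of_zf {U : Set ℂ} {G : ℂ → ℂ} (h : ZF (NV a b) (alV a b) U G) :
    ZFree a b U (fun s => G (s - 1)) := by
  refine ⟨fun s hs => ?_, fun s hs => ?_⟩
  · have h1 := h.1 (s - 1) (by
      rcases hs with h | h
      · exact Or.inl h
      · right
        rw [Complex.sub_re, Complex.one_re]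
        linarith)
    refine ⟨?_, h1.2⟩
    have h2 : DifferentiableAt ℂ (G ∘ fun s : ℂ => s - 1) s :=
      DifferentiableAt.comp s h1.1 (by fun_prop)
    exact h2
  · have hw : 1 / 2 < (s - 1).re := by
      rw [Complex.sub_re, Complex.one_re]
      linarith
    have h2 := (hasProd_iff (a := a) (b := b) hw (G (s - 1))).2 (h.2 (s - 1) hw)
    rw [add_sub_cancel] at h2
    exact h2

theorem zf_of_zfree {U : Set ℂ} {G : ℂ → ℂ} (h : ZFree a b U G) :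
    ZF (NV a b) (alV a b) U (fun w => G (1 + w)) := by
  refine ⟨fun w hw => ?_, fun w hw => ?_⟩
  · have h1 := h.1 (1 + w) (by
      rcases hw with h | h
      · left
        rwa [add_sub_cancel_left]
      · right
        rw [Complex.add_re, Complex.one_re]
        linarith)
    refine ⟨?_, h1.2⟩
    have h2 : DifferentiableAt ℂ (G ∘ fun w : ℂ => 1 + w) w :=
      DifferentiableAt.comp w h1.1 (by fun_prop)
    exact h2
  · exact (hasProd_iff hw _).1 (h.2 (1 + w) (by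
      rw [Complex.add_re, Complex.one_re]
      linarith))

/-- the sums grow slowly -/
def Slw (a b : 𝓞 K) (ρ ρ' : ℝ) : Prop :=
  ∀ ε : ℝ, 0 < ε → ∃ C : ℝ, ∀ᶠ Y : ℝ in atTop,
    |fsum a b ρ ρ' Y| ≤ C * Real.exp (ε * Real.log Y ^ ρ)

theorem slw_iff (ρ ρ' : ℝ) : Slw a b ρ ρ' ↔ Slow (NV a b) (alV a b) ρ ρ' := by
  unfold Slw Slow
  simp only [fsum_eq]

theorem slow_iff_cont {ρ ρ' : ℝ} (hρ : 1 < ρ) (hρ' : ρ < ρ') :
    Slw a b ρ ρ' ↔ ∃ G : ℂ → ℂ, ZFree a b (Sect ρ) G := by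
  rw [slw_iff, slow_iff (csys a b) hρ hρ']
  exact ⟨fun ⟨G, h⟩ => ⟨_, zfree_of_zf h⟩, fun ⟨G, h⟩ => ⟨_, zf_of_zfree h⟩⟩

theorem slow_all_iff_cont : (∀ ρ ρ' : ℝ, 1 < ρ → ρ < ρ' → Slw a b ρ ρ') ↔
    ∃ G : ℂ → ℂ, ZFree a b {w | 0 < w.re} G := by
  have h1 : (∀ ρ ρ' : ℝ, 1 < ρ → ρ < ρ' → Slw a b ρ ρ') ↔
      ∀ ρ ρ' : ℝ, 1 < ρ → ρ < ρ' → Slow (NV a b) (alV a b) ρ ρ' := by
    simp only [slw_iff]
  rw [h1, slow_all_iff (csys a b)]
  exact ⟨fun ⟨G, h⟩ => ⟨_, zfree_of_zf h⟩, fun ⟨G, h⟩ => ⟨_, zf_of_zfree h⟩⟩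

/-- the sums are `m log log Y + O(1)` -/
def Lw (a b : 𝓞 K) (ρ ρ' m : ℝ) : Prop :=
  ∃ C : ℝ, ∀ᶠ Y : ℝ in atTop, |fsum a b ρ ρ' Y - m * Real.log (Real.log Y)| ≤ C

theorem lw_iff (ρ ρ' m : ℝ) : Lw a b ρ ρ' m ↔ Gr (NV a b) (alV a b) ρ ρ' m := by
  unfold Lw Gr
  simp only [fsum_eq]
  constructor
  · rintro ⟨C, h⟩
    exact ⟨|C|, abs_nonneg _, h.mono fun Y hY => hY.trans (le_abs_self C)⟩
  · rintro ⟨C, -, h⟩
    exact ⟨C, h⟩

/-- `|G (1 + x)|` has the order of magnitude `x ^ m` -/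
def Siz (G : ℂ → ℂ) (m : ℝ) : Prop :=
  ∃ A B : ℝ, 0 < A ∧ 0 < B ∧ ∀ x : ℝ, 0 < x → x ≤ 1 →
    A * x ^ m ≤ ‖G (1 + x)‖ ∧ ‖G (1 + x)‖ ≤ B * x ^ m

theorem siz_of {G : ℂ → ℂ} {m : ℝ} (h : Size G m) : Siz (fun s => G (s - 1)) m := by
  obtain ⟨A, B, hA, hB, h⟩ := h
  refine ⟨A, B, hA, hB, fun x hx hx1 => ?_⟩
  have h1 := h x hx hx1
  simp only [add_sub_cancel_left]
  exact h1

theorem lw_cont {ρ ρ' m : ℝ} (hρ : 1 < ρ) (hρ' : ρ < ρ') (h : Lw a b ρ ρ' m) :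
    ∃ G : ℂ → ℂ, ZFree a b (Sect ρ) G ∧ Siz G m := by
  rw [lw_iff] at h
  obtain ⟨G, h1, h2⟩ := Gr.cont (csys a b) hρ hρ' h
  exact ⟨_, zfree_of_zf h1, siz_of h2⟩

theorem lw_all_cont {m : ℝ} (h : ∀ ρ ρ' : ℝ, 1 < ρ → ρ < ρ' → Lw a b ρ ρ' m) :
    ∃ G : ℂ → ℂ, ZFree a b {w | 0 < w.re} G ∧ Siz G m := by
  obtain ⟨G, h1, h2⟩ := gr_all (csys a b) fun ρ ρ' h1 h2 => (lw_iff ρ ρ' m).1 (h ρ ρ' h1 h2)
  exact ⟨_, zfree_of_zf h1, siz_of h2⟩

/-- the logarithm of the number of points -/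
theorem log_cnt_bd (hD : 4 * a ^ 3 + 27 * b ^ 2 ≠ 0) : ∃ C : ℝ, ∀ᶠ Y : ℝ in atTop,
    |Real.log (cnt a b (Real.log Y ^ 2)) - rk a b * Real.log (Real.log Y)| ≤ C := by
  obtain ⟨c, C, hc, hC, h⟩ := cnt_log hD
  refine ⟨|Real.log c| + |Real.log C|, ?_⟩
  filter_upwards [h, Real.tendsto_log_atTop.eventually (eventually_gt_atTop 0)] with X h2 h3
  have h4 : 0 < Real.log X ^ rk a b := by positivity
  have h5 := Real.log_le_log (by positivity) h2.1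
  have h6 := Real.log_le_log (lt_of_lt_of_le (by positivity) h2.1) h2.2
  rw [Real.log_mul hc.ne' h4.ne', Real.log_pow] at h5
  rw [Real.log_mul hC.ne' h4.ne', Real.log_pow] at h6
  have h7 := neg_abs_le (Real.log c)
  have h8 := le_abs_self (Real.log C)
  have h9 := abs_nonneg (Real.log c)
  have h10 := abs_nonneg (Real.log C)
  rw [abs_le]
  constructor <;> linarith

/-- the comparison of the sums with the number of points -/
def Cmp (a b : 𝓞 K) (ρ ρ' : ℝ) : Prop :=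
  ∃ C : ℝ, ∀ᶠ Y : ℝ in atTop,
    |fsum a b ρ ρ' Y - Real.log (cnt a b (Real.log Y ^ 2))| ≤ C

theorem cmp_iff (hD : 4 * a ^ 3 + 27 * b ^ 2 ≠ 0) (ρ ρ' : ℝ) :
    Cmp a b ρ ρ' ↔ Lw a b ρ ρ' (rk a b) := by
  obtain ⟨C₀, h0⟩ := log_cnt_bd hD
  constructor
  · rintro ⟨C, h⟩
    refine ⟨C + C₀, ?_⟩
    filter_upwards [h, h0] with Y h1 h2
    exact (abs_sub_le _ _ _).trans (add_le_add h1 h2)
  · rintro ⟨C, h⟩
    refine ⟨C + C₀, ?_⟩
    filter_upwards [h, h0] with Y h1 h2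
    rw [abs_sub_comm] at h2
    exact (abs_sub_le _ _ _).trans (add_le_add h1 h2)

theorem law (hF : IsL a b F) {ρ ρ' : ℝ} (hρ : 1 < ρ) (hρ' : ρ < ρ') (r : ℕ) :
    List.TFAE [analyticOrderAt F 1 = r ∧ ∀ s : ℂ, s - 1 ∈ Sect ρ → F s ≠ 0,
      Lw a b ρ ρ' r,
      Tendsto (fun Y : ℝ => fsum a b ρ ρ' Y / Real.log (Real.log Y)) atTop (𝓝 (r : ℝ))] := by
  have h0 : AnalyticAt ℂ (fun w => F (1 + w)) 0 := (hF.cp.ent).analyticAt 0
  have h1 := law_tfae (csys a b) (con_of hF) h0 hρ hρ' r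
  have e1 : (analyticOrderAt F 1 = r ∧ ∀ s : ℂ, s - 1 ∈ Sect ρ → F s ≠ 0) ↔
      (analyticOrderAt (fun w => F (1 + w)) 0 = r ∧ ∀ s ∈ Sect ρ, F (1 + s) ≠ 0) := by
    rw [ord_shift F, add_zero]
    refine and_congr Iff.rfl ⟨fun h s hs => h (1 + s) (by rwa [add_sub_cancel_left]),
      fun h s hs => ?_⟩
    have h2 := h (s - 1) hs
    rwa [add_sub_cancel] at h2
  rw [e1, lw_iff]
  simp only [fsum_eq]
  exact h1

theorem law_all' (hF : IsL a b F) (r : ℕ) :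
    (∀ ρ ρ' : ℝ, 1 < ρ → ρ < ρ' → Lw a b ρ ρ' r) ↔
      analyticOrderAt F 1 = r ∧ ∀ s : ℂ, 1 < s.re → F s ≠ 0 := by
  have h0 : AnalyticAt ℂ (fun w => F (1 + w)) 0 := (hF.cp.ent).analyticAt 0
  have h1 := law_all (csys a b) (con_of hF) h0 r
  have e1 : (analyticOrderAt F 1 = r ∧ ∀ s : ℂ, 1 < s.re → F s ≠ 0) ↔
      (analyticOrderAt (fun w => F (1 + w)) 0 = r ∧ ∀ s : ℂ, 0 < s.re → F (1 + s) ≠ 0) := by
    rw [ord_shift F, add_zero]
    refine and_congr Iff.rfl ⟨fun h s hs => h (1 + s) (by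
      rw [Complex.add_re, Complex.one_re]
      linarith), fun h s hs => ?_⟩
    have h2 := h (s - 1) (by
      rw [Complex.sub_re, Complex.one_re]
      linarith)
    rwa [add_sub_cancel] at h2
  rw [e1, ← h1]
  simp only [lw_iff]

/-- the exact exponent of growth -/
theorem level (hF : IsL a b F) {ρ ρ' : ℝ} (hρ : 1 < ρ) (hρ' : ρ < ρ') {θ : ℝ} (hθ : 0 ≤ θ) :
    (∀ s : ℂ, s - 1 ∈ Sect ρ → θ < ((s - 1) ^ (ρ : ℂ)).re → F s ≠ 0) ↔
    ∀ ε : ℝ, 0 < ε → ∃ C : ℝ, ∀ᶠ Y : ℝ in atTop,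
      |fsum a b ρ ρ' Y| ≤ C * Real.exp ((θ + ε) * Real.log Y ^ ρ) := by
  simp only [fsum_eq]
  rw [← (csys a b).Sr_level (con_of hF) hρ hρ' hθ]
  constructor
  · intro h s h1 h2 h3
    refine h (1 + s) ?_ ?_
    · rw [add_sub_cancel_left]
      exact ⟨h1, h2⟩
    · rwa [add_sub_cancel_left]
  · intro h s hs h3
    have h4 := h (s - 1) hs.1 hs.2 h3
    rwa [add_sub_cancel] at h4

/-- if there are no real zeros, then thin sectors contain no zeros -/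
theorem thin (hF : IsL a b F) (hr : ∀ x : ℝ, 1 < x → x ≤ 3 / 2 → F x ≠ 0) :
    ∃ ρ₀ : ℝ, 1 < ρ₀ ∧ ∀ ρ : ℝ, ρ₀ ≤ ρ → ∀ s : ℂ, s - 1 ∈ Sect ρ → F s ≠ 0 := by
  have H := hF.cp
  set R : Set ℂ := (Icc (0 : ℝ) 1) ×ℂ (Icc (-1) 1) with hR
  have hRc : IsCompact R := isCompact_Icc.reProdIm isCompact_Icc
  set Z : Set ℂ := {w | w ∈ R ∧ F (1 + w) = 0} with hZ
  have hG : AnalyticOnNhd ℂ (fun w => F (1 + w)) univ :=
    H.ent.differentiableOn.analyticOnNhd isOpen_univ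
  have hZf : Z.Finite := by
    by_contra hinf
    obtain ⟨z, -, hz⟩ := Set.Infinite.exists_accPt_of_subset_isCompact hinf hRc (fun w hw => hw.1)
    rw [accPt_iff_frequently_nhdsNE] at hz
    have h1 : ∃ᶠ w in 𝓝[≠] z, F (1 + w) = 0 := hz.mono fun w hw => hw.2
    have h2 := hG.eqOn_zero_of_preconnected_of_frequently_eq_zero isPreconnected_univ (mem_univ z) h1
    have h3 : F (1 + 3) = 0 := h2 (mem_univ 3)
    exact Pool.Agent.Y697.DL.ne_zero (csys a b) H (w := 3) (by norm_num) h3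
  -- the least argument
  obtain ⟨δ, hδ, hδ1⟩ : ∃ δ : ℝ, 0 < δ ∧ ∀ w ∈ Z, 0 < w.re → δ ≤ |w.arg| := by
    have h1 : ∀ w ∈ Z, 0 < w.re → 0 < |w.arg| := by
      intro w hw hre
      rw [abs_pos]
      intro harg
      have h2 : w = (w.re : ℂ) := by
        have h3 := (Complex.arg_eq_zero_iff.1 harg).2
        exact Complex.ext (by simp) (by simp [h3])
      have h4 := hw.2
      by_cases h5 : w.re ≤ 1 / 2
      · refine hr (1 + w.re) (by linarith) (by linarith) ?_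
        rw [h2] at h4
        push_cast
        exact h4
      · exact Pool.Agent.Y697.DL.ne_zero (csys a b) H (w := w) (by linarith [not_le.1 h5]) h4
    set Z' : Set ℂ := {w | w ∈ Z ∧ 0 < w.re} with hZ'
    have hZ'f : Z'.Finite := hZf.subset fun w hw => hw.1
    by_cases hne : Z'.Nonempty
    · obtain ⟨w₀, hw₀, hmin⟩ := hZ'f.exists_minimalFor (fun w => |w.arg|) Z' hne
      refine ⟨|w₀.arg|, h1 w₀ hw₀.1 hw₀.2, fun w hw hre => ?_⟩
      by_contra hc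
      push Not at hc
      have := hmin ⟨hw, hre⟩ hc.le
      linarith
    · exact ⟨1, one_pos, fun w hw hre => absurd ⟨w, hw, hre⟩ hne⟩
  refine ⟨max 2 (Real.pi / (2 * δ)), lt_of_lt_of_le (by norm_num) (le_max_left _ _),
    fun ρ hρ s hs h0 => ?_⟩
  have hρ2 : 2 ≤ ρ := (le_max_left _ _).trans hρ
  have hre : 0 < (s - 1).re := sect_re (by linarith) hs
  have harg : |(s - 1).arg| < Real.pi / (2 * ρ) := hs.2
  have h3 : (s - 1).re ≤ 1 / 2 := by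
    by_contra hc
    push Not at hc
    refine Pool.Agent.Y697.DL.ne_zero (csys a b) H hc ?_
    simpa using h0
  have h4 : |(s - 1).im| ≤ (s - 1).re := by
    have h5 : |(s - 1).arg| < Real.pi / 4 := by
      refine harg.trans_le ?_
      rw [div_le_div_iff₀ (by positivity) (by norm_num)]
      have := Real.pi_pos
      nlinarith
    have h6 : |Real.tan (s - 1).arg| ≤ 1 := by
      rw [abs_le]
      obtain ⟨h7, h8⟩ := abs_lt.1 h5
      have hpi := Real.pi_pos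
      constructor
      · rw [← Real.tan_pi_div_four, ← Real.tan_neg]
        exact (Real.strictMonoOn_tan.le_iff_le ⟨by linarith, by linarith⟩
          ⟨by linarith, by linarith⟩).2 h7.le
      · rw [← Real.tan_pi_div_four]
        exact (Real.strictMonoOn_tan.le_iff_le ⟨by linarith, by linarith⟩
          ⟨by linarith, by linarith⟩).2 h8.le
    rw [Complex.tan_arg, abs_div, abs_of_pos hre, div_le_one hre] at h6
    exact h6
  have h5 : s - 1 ∈ Z := by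
    refine ⟨?_, by simpa using h0⟩
    rw [hR, Complex.mem_reProdIm]
    obtain ⟨h6, h7⟩ := abs_le.1 h4
    exact ⟨⟨hre.le, by linarith⟩, ⟨by linarith, by linarith⟩⟩
  have h6 := hδ1 _ h5 hre
  have h7 : Real.pi / (2 * ρ) ≤ δ := by
    have h8 : Real.pi / (2 * δ) ≤ ρ := (le_max_right _ _).trans hρ
    rw [div_le_iff₀ (by positivity)] at h8 ⊢
    nlinarith
  linarith

end Pool.Agent.Y697.SL
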